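import Pool.Agent.H47.B1.M28

/-!
# ISE Cnt: counting the marks with one cofactor in a class

Let y = x / a (floor), s = h i, q' = W ∏ Z.
If some p ∈ Z divides a: for n with a ∣ n + h i and p ∣ n + h (φ p) we get p ∣ n + h i, so h i ≡ h (φ p) mod p with φ p ≠ i, contradicting
`Good` (third clause, p ∤ W): the count is 0 and | - DP y/φ(W) ∏ fn| = third term of eQ (DP ≥ 0: monotonicity of π; fn p ≥ 0), eB ≥ 0.
Otherwise a is coprime to q' (haW, Z). n ↦ m = (n + h i)/a is a bijection from the counted n onto the primes m with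
x + s < a m ≤ 2x + s, a m ≡ b + h i mod W and a m ≡ h i - h (φ p) mod p (p ∈ Z), i.e. (CRT; W and the p ∈ Z are pairwise coprime)
m in ONE class u mod q', and u is a unit: b + h i is coprime to W (`Good`), h i ≢ h (φ p) mod p.
The primes m of (y, 2y] in the class u: |# - DP y/φ(q')| ≤ eB W 0 y Z (`le_ciSup`, finite type; nonempty: units), and
φ(q') = φ(W) ∏ (p - 1), so DP y/φ(q') = DP y/φ(W) ∏ fn p.
Difference of the ranges: a y ≤ x < a (y+1), so: a m > x + s implies m > y; m ∈ (y, 2y] with a m ≤ x + s has m ≤ y + s (since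
a m ≤ x + s < a (y + 1) + s ≤ a (y + 1 + s)); and a m ≤ 2x + s < 2 a (y+1) + s ≤ a (2y + 2 + s) gives m ≤ 2y + 1 + s;
so the two counts differ by at most 2s + 1 ≤ 2s + 4.
-/

set_option autoImplicit false

namespace Pool.Agent.H76.ISE

open Finset Filter Pool.Agent.H36.IS

private theorem Cnt_fn_nonneg {p : ℕ} (hp : p.Prime) : 0 ≤ fn p := by
  unfold fn
  have h1 : (2 : ℝ) ≤ p := by exact_mod_cast hp.two_le
  exact div_nonneg zero_le_one (by linarith)

private theorem Cnt_DP_nonneg (y : ℕ) : 0 ≤ DP y := by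
  unfold DP
  have h1 : Nat.primeCounting y ≤ Nat.primeCounting (2 * y) :=
    Nat.monotone_primeCounting (by omega)
  have h2 : (Nat.primeCounting y : ℝ) ≤ (Nat.primeCounting (2 * y) : ℝ) := by exact_mod_cast h1
  linarith

private theorem Cnt_eB_nonneg (W s x : ℕ) (Z : Finset ℕ) : 0 ≤ eB W s x Z := by
  unfold eB
  exact Real.iSup_nonneg fun a => abs_nonneg _

private theorem Cnt_tot (Z : Finset ℕ) (hZ : ∀ p ∈ Z, p.Prime) :
    (Nat.totient (∏ p ∈ Z, p) : ℝ) = ∏ p ∈ Z, ((p : ℝ) - 1) := by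
  classical
  induction Z using Finset.induction_on with
  | empty => simp
  | insert p Z hp ih =>
    have hpp : p.Prime := hZ p (mem_insert_self _ _)
    have h1 : Nat.Coprime p (∏ r ∈ Z, r) := by
      refine Nat.Coprime.prod_right fun r hr => ?_
      refine (Nat.coprime_primes hpp (hZ r (mem_insert_of_mem hr))).2 fun h2 => hp ?_
      rw [h2]
      exact hr
    rw [prod_insert hp, prod_insert hp, Nat.totient_mul h1, Nat.totient_prime hpp, Nat.cast_mul,
      ih (fun r hr => hZ r (mem_insert_of_mem hr)), Nat.cast_sub hpp.one_le, Nat.cast_one]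

private theorem Cnt_main (Z : Finset ℕ) (W : ℕ) (hZ : ∀ p ∈ Z, p.Prime ∧ ¬ p ∣ W) (t : ℝ) :
    t / (Nat.totient (W * ∏ p ∈ Z, p) : ℝ) = t / (Nat.totient W : ℝ) * ∏ p ∈ Z, fn p := by
  have hcop : Nat.Coprime W (∏ p ∈ Z, p) :=
    Nat.Coprime.prod_right fun p hp => (((hZ p hp).1.coprime_iff_not_dvd).2 (hZ p hp).2).symm
  have h1 : ∏ p ∈ Z, fn p = (∏ p ∈ Z, ((p : ℝ) - 1))⁻¹ := by
    rw [← Finset.prod_inv_distrib]
    refine Finset.prod_congr rfl fun p _ => ?_
    unfold fn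
    rw [one_div]
  rw [Nat.totient_mul hcop, Nat.cast_mul, Cnt_tot Z (fun p hp => (hZ p hp).1), h1, ← div_div,
    div_eq_mul_inv (t / (Nat.totient W : ℝ))]

private theorem Cnt_crt {ι : Type} [Fintype ι] [DecidableEq ι] (h : ι → ℕ) (W b : ℕ)
    (hG : Good h W b) (i : ι) (Z : Finset ℕ) (hZ : ∀ p ∈ Z, p.Prime ∧ ¬ p ∣ W) (φ : ℕ → ι)
    (hφ : ∀ p ∈ Z, φ p ≠ i) :
    ∃ c : ℕ, Nat.Coprime c (W * ∏ p ∈ Z, p) ∧ ∀ N : ℕ, N ≡ c [MOD W * ∏ p ∈ Z, p] ↔
      (N ≡ b + h i [MOD W] ∧ ∀ p ∈ Z, N + h (φ p) ≡ h i [MOD p]) := by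
  have hcop : Nat.Coprime W (∏ p ∈ Z, p) :=
    Nat.Coprime.prod_right fun p hp => (((hZ p hp).1.coprime_iff_not_dvd).2 (hZ p hp).2).symm
  have hpw : Set.Pairwise (Z : Set ℕ) (Function.onFun Nat.Coprime (fun p : ℕ => p)) := by
    intro p hp r hr hne
    exact (Nat.coprime_primes (hZ p hp).1 (hZ r hr).1).2 hne
  obtain ⟨k1, hk1⟩ := Nat.chineseRemainderOfFinset (fun p => h i + (p - 1) * h (φ p))
    (fun p => p) Z (fun p hp => (hZ p hp).1.ne_zero) hpw
  obtain ⟨c, hc1, hc2⟩ := Nat.chineseRemainder hcop (b + h i) k1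
  have hc3 : ∀ p ∈ Z, c + h (φ p) ≡ h i [MOD p] := by
    intro p hp
    have e1 : c ≡ k1 [MOD p] := hc2.of_dvd (Finset.dvd_prod_of_mem _ hp)
    have e2 : c + h (φ p) ≡ h i + (p - 1) * h (φ p) + h (φ p) [MOD p] :=
      (e1.trans (hk1 p hp)).add_right (h (φ p))
    refine e2.trans ?_
    have e3 : h i + (p - 1) * h (φ p) + h (φ p) = h i + p * h (φ p) := by
      have h4 := (hZ p hp).1.one_le
      obtain ⟨k, rfl⟩ : ∃ k, p = k + 1 := ⟨p - 1, by omega⟩
      rw [Nat.add_sub_cancel]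
      ring
    rw [e3]
    exact Nat.add_mul_mod_self_left _ _ _
  refine ⟨c, ?_, fun N => ⟨fun hN => ?_, fun hN => ?_⟩⟩
  · refine Nat.Coprime.mul_right ?_ (Nat.Coprime.prod_right fun p hp => ?_)
    · exact (hc1.gcd_eq).trans (hG.2.1 i)
    · refine (((hZ p hp).1.coprime_iff_not_dvd).2 fun hd => ?_).symm
      have h5 : c ≡ 0 [MOD p] := (Nat.modEq_zero_iff_dvd).2 hd
      have h6 : c + h (φ p) ≡ 0 + h (φ p) [MOD p] := h5.add_right _
      rw [zero_add] at h6
      exact (hG.2.2 p (hZ p hp).1 (hZ p hp).2).2 (φ p) i (hφ p hp) (h6.symm.trans (hc3 p hp))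
  · refine ⟨(hN.of_dvd (dvd_mul_right _ _)).trans hc1, fun p hp => ?_⟩
    have h5 : N ≡ c [MOD p] :=
      hN.of_dvd (dvd_mul_of_dvd_right (Finset.dvd_prod_of_mem _ hp) _)
    exact (h5.add_right (h (φ p))).trans (hc3 p hp)
  · refine (Nat.modEq_and_modEq_iff_modEq_mul hcop).1 ⟨hN.1.trans hc1.symm, ?_⟩
    rw [Nat.modEq_iff_dvd, Int.natCast_dvd]
    refine Finset.prod_primes_dvd _ (fun p hp => (hZ p hp).1.prime) fun p hp => ?_
    have h5 : N ≡ c [MOD p] := ((hN.2 p hp).trans (hc3 p hp).symm).add_right_cancel' _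
    rw [Nat.modEq_iff_dvd, Int.natCast_dvd] at h5
    exact h5

open Classical in
theorem count_Q {ι : Type} [Fintype ι] [DecidableEq ι] (h : ι → ℕ) (W b : ℕ) (hG : Good h W b) (i : ι) (x a : ℕ)
    (ha : 0 < a) (haW : Nat.Coprime a W) (Z : Finset ℕ) (hZ : ∀ p ∈ Z, p.Prime ∧ ¬ p ∣ W) (φ : ℕ → ι)
    (hφ : ∀ p ∈ Z, φ p ≠ i) :
    |((((Ioc x (2 * x)).filter (fun n => n ≡ b [MOD W] ∧ Mk1 a (n + h i))).filter
        (fun n => ∀ p ∈ Z, p ∣ n + h (φ p))).card : ℝ) - DP (x / a) / (Nat.totient W : ℝ) * ∏ p ∈ Z, fn p| ≤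
      eQ W (h i) x a Z := by
  have hDP := Cnt_DP_nonneg (x / a)
  have hfn : 0 ≤ ∏ p ∈ Z, fn p := Finset.prod_nonneg fun p hp => Cnt_fn_nonneg (hZ p hp).1
  have hnn : 0 ≤ DP (x / a) / (Nat.totient W : ℝ) * ∏ p ∈ Z, fn p :=
    mul_nonneg (div_nonneg hDP (Nat.cast_nonneg _)) hfn
  have hs0 : (0 : ℝ) ≤ (h i : ℝ) := Nat.cast_nonneg _
  by_cases hex : ∃ p ∈ Z, p ∣ a
  · have hempty : (((Ioc x (2 * x)).filter (fun n => n ≡ b [MOD W] ∧ Mk1 a (n + h i))).filter
        (fun n => ∀ p ∈ Z, p ∣ n + h (φ p))) = ∅ := by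
      refine Finset.eq_empty_of_forall_notMem fun n hn => ?_
      obtain ⟨p, hp, hpa⟩ := hex
      rw [mem_filter, mem_filter] at hn
      have h1 : p ∣ n + h i := hpa.trans hn.1.2.2.1
      have h2 : p ∣ n + h (φ p) := hn.2 p hp
      have h3 : n + h (φ p) ≡ n + h i [MOD p] :=
        ((Nat.modEq_zero_iff_dvd).2 h2).trans ((Nat.modEq_zero_iff_dvd).2 h1).symm
      exact (hG.2.2 p (hZ p hp).1 (hZ p hp).2).2 (φ p) i (hφ p hp) (h3.add_left_cancel' n)
    rw [hempty, Finset.card_empty, Nat.cast_zero, zero_sub, abs_neg, abs_of_nonneg hnn]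
    unfold eQ
    rw [if_pos hex]
    have h1 := Cnt_eB_nonneg W 0 (x / a) Z
    linarith
  · obtain ⟨c, hc, hcrt⟩ := Cnt_crt h W b hG i Z hZ φ hφ
    have hap : Nat.Coprime a (W * ∏ p ∈ Z, p) :=
      Nat.Coprime.mul_right haW (Nat.Coprime.prod_right fun p hp =>
        (((hZ p hp).1.coprime_iff_not_dvd).2 fun h1 => hex ⟨p, hp, h1⟩).symm)
    have hq0 : W * ∏ p ∈ Z, p ≠ 0 :=
      mul_ne_zero hG.1.ne' (Finset.prod_ne_zero_iff.2 fun p hp => (hZ p hp).1.ne_zero)
    have : NeZero (W * ∏ p ∈ Z, p) := ⟨hq0⟩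
    obtain ⟨u, hu⟩ : ∃ u : (ZMod (W * ∏ p ∈ Z, p))ˣ, ∀ m : ℕ,
        (m : ZMod (W * ∏ p ∈ Z, p)) = (u : ZMod (W * ∏ p ∈ Z, p)) ↔
          a * m ≡ c [MOD W * ∏ p ∈ Z, p] := by
      refine ⟨(ZMod.unitOfCoprime a hap)⁻¹ * ZMod.unitOfCoprime c hc, fun m => ?_⟩
      rw [Units.val_mul, Units.eq_inv_mul_iff_mul_eq, ZMod.coe_unitOfCoprime,
        ZMod.coe_unitOfCoprime, ← Nat.cast_mul, ZMod.natCast_eq_natCast_iff]
    have hkey : |(((Ioc (x / a + 0) (2 * (x / a) + 0)).filter (fun p : ℕ => p.Prime ∧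
        (p : ZMod (W * ∏ p ∈ Z, p)) = u)).card : ℝ) -
        DP (x / a) / (Nat.totient (W * ∏ p ∈ Z, p) : ℝ)| ≤ eB W 0 (x / a) Z := by
      unfold eB
      exact le_ciSup (f := fun a' : (ZMod (W * ∏ p ∈ Z, p))ˣ =>
        |(((Ioc (x / a + 0) (2 * (x / a) + 0)).filter (fun p : ℕ => p.Prime ∧
          (p : ZMod (W * ∏ p ∈ Z, p)) = a')).card : ℝ) -
          DP (x / a) / (Nat.totient (W * ∏ p ∈ Z, p) : ℝ)|) (Set.finite_range _).bddAbove u
    rw [Cnt_main Z W hZ] at hkey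
    -- the bounds of the quotient
    have hy1 : a * (x / a) ≤ x := Nat.mul_div_le x a
    have hy2 : x < a * (x / a + 1) := Nat.lt_mul_div_succ x ha
    have hlow : ∀ m, x + h i < a * m → x / a < m := by
      intro m hm
      by_contra h1
      have h2 : a * m ≤ a * (x / a) := Nat.mul_le_mul_left a (not_lt.1 h1)
      omega
    have hup : ∀ m, a * m ≤ 2 * x + h i → m ≤ 2 * (x / a) + 1 + h i := by
      intro m hm
      by_contra h1
      have h2 : a * (2 * (x / a) + 2 + h i) ≤ a * m := Nat.mul_le_mul_left a (by omega)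
      have h3 : a * (2 * (x / a) + 2 + h i) = 2 * (a * (x / a + 1)) + a * h i := by ring
      have h4 : h i ≤ a * h i := Nat.le_mul_of_pos_left _ ha
      omega
    have hup2 : ∀ m, a * m ≤ x + h i → m ≤ x / a + h i := by
      intro m hm
      by_contra h1
      have h2 : a * (x / a + 1 + h i) ≤ a * m := Nat.mul_le_mul_left a (by omega)
      have h3 : a * (x / a + 1 + h i) = a * (x / a + 1) + a * h i := by ring
      have h4 : h i ≤ a * h i := Nat.le_mul_of_pos_left _ ha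
      omega
    set T : Finset ℕ := (Ioc (x / a) (2 * (x / a) + 1 + h i)).filter (fun m : ℕ => (m.Prime ∧
        (m : ZMod (W * ∏ p ∈ Z, p)) = u) ∧ x + h i < a * m ∧ a * m ≤ 2 * x + h i) with hT
    set A : Finset ℕ := (Ioc (x / a + 0) (2 * (x / a) + 0)).filter (fun p : ℕ => p.Prime ∧
        (p : ZMod (W * ∏ p ∈ Z, p)) = u) with hA
    have hcard : (((Ioc x (2 * x)).filter (fun n => n ≡ b [MOD W] ∧ Mk1 a (n + h i))).filter
        (fun n => ∀ p ∈ Z, p ∣ n + h (φ p))).card = T.card := by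
      refine Finset.card_nbij' (fun n => (n + h i) / a) (fun m => a * m - h i) ?_ ?_ ?_ ?_
      · intro n hn
        rw [Finset.mem_coe, mem_filter, mem_filter, mem_Ioc] at hn
        obtain ⟨⟨⟨hn1, hn2⟩, hn3, hn4, hn5⟩, hn6⟩ := hn
        have e1 : a * ((n + h i) / a) = n + h i := Nat.mul_div_cancel' hn4
        rw [Finset.mem_coe, hT, mem_filter, mem_Ioc]
        refine ⟨⟨hlow _ (by rw [e1]; omega), hup _ (by rw [e1]; omega)⟩, ⟨hn5, ?_⟩, by
          rw [e1]; omega, by rw [e1]; omega⟩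
        rw [hu, e1, hcrt]
        refine ⟨hn3.add_right _, fun p hp => ?_⟩
        have e2 : n + h i + h (φ p) = h i + (n + h (φ p)) := by ring
        rw [e2]
        have e3 : h i + (n + h (φ p)) ≡ h i + 0 [MOD p] :=
          ((Nat.modEq_zero_iff_dvd).2 (hn6 p hp)).add_left _
        exact e3
      · intro m hm
        rw [Finset.mem_coe, hT, mem_filter] at hm
        obtain ⟨-, ⟨hm1, hm2⟩, hm3, hm4⟩ := hm
        have e1 : a * m - h i + h i = a * m := by omega
        rw [hu, hcrt] at hm2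
        rw [Finset.mem_coe, mem_filter, mem_filter, mem_Ioc]
        refine ⟨⟨⟨?_, ?_⟩, ?_, ?_, ?_⟩, fun p hp => ?_⟩
        · show x < a * m - h i
          omega
        · show a * m - h i ≤ 2 * x
          omega
        · have e2 : a * m - h i + h i ≡ b + h i [MOD W] := by
            rw [e1]
            exact hm2.1
          exact e2.add_right_cancel' _
        · show a ∣ a * m - h i + h i
          rw [e1]
          exact dvd_mul_right _ _
        · show ((a * m - h i + h i) / a).Prime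
          rw [e1, Nat.mul_div_cancel_left m ha]
          exact hm1
        · have e2 := hm2.2 p hp
          rw [← e1, show a * m - h i + h i + h (φ p) = h i + (a * m - h i + h (φ p)) by ring] at e2
          have e3 : h i + (a * m - h i + h (φ p)) ≡ h i + 0 [MOD p] := e2
          exact (Nat.modEq_zero_iff_dvd).1 (e3.add_left_cancel' _)
      · intro n hn
        rw [Finset.mem_coe, mem_filter, mem_filter, mem_Ioc] at hn
        obtain ⟨⟨⟨hn1, hn2⟩, hn3, hn4, hn5⟩, hn6⟩ := hn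
        show a * ((n + h i) / a) - h i = n
        rw [Nat.mul_div_cancel' hn4, Nat.add_sub_cancel]
      · intro m hm
        rw [Finset.mem_coe, hT, mem_filter] at hm
        obtain ⟨-, ⟨hm1, hm2⟩, hm3, hm4⟩ := hm
        show (a * m - h i + h i) / a = m
        rw [show a * m - h i + h i = a * m by omega, Nat.mul_div_cancel_left m ha]
    have hTA : T ⊆ A ∪ Ioc (2 * (x / a)) (2 * (x / a) + 1 + h i) := by
      intro m hm
      rw [hT, mem_filter, mem_Ioc] at hm
      obtain ⟨⟨hm0, hm0'⟩, hm1, hm3, hm4⟩ := hm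
      rw [mem_union, hA, mem_filter, mem_Ioc, mem_Ioc]
      by_cases h1 : m ≤ 2 * (x / a)
      · exact Or.inl ⟨⟨by omega, by omega⟩, hm1⟩
      · exact Or.inr ⟨by omega, hm0'⟩
    have hAT : A ⊆ T ∪ Ioc (x / a) (x / a + h i) := by
      intro m hm
      rw [hA, mem_filter, mem_Ioc] at hm
      obtain ⟨⟨hm0, hm0'⟩, hm1⟩ := hm
      rw [mem_union, hT, mem_filter, mem_Ioc, mem_Ioc]
      by_cases h1 : x + h i < a * m
      · refine Or.inl ⟨⟨by omega, by omega⟩, hm1, h1, ?_⟩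
        have h2 : a * m ≤ a * (2 * (x / a)) := Nat.mul_le_mul_left a (by omega)
        have h3 : a * (2 * (x / a)) = 2 * (a * (x / a)) := by ring
        omega
      · exact Or.inr ⟨by omega, hup2 m (not_lt.1 h1)⟩
    have c1 : T.card ≤ A.card + (1 + h i) := by
      refine (Finset.card_le_card hTA).trans ((Finset.card_union_le _ _).trans ?_)
      rw [Nat.card_Ioc]
      omega
    have c2 : A.card ≤ T.card + h i := by
      refine (Finset.card_le_card hAT).trans ((Finset.card_union_le _ _).trans ?_)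
      rw [Nat.card_Ioc]
      omega
    have c1' : (T.card : ℝ) ≤ A.card + (1 + h i) := by exact_mod_cast c1
    have c2' : (A.card : ℝ) ≤ T.card + h i := by exact_mod_cast c2
    rw [hcard]
    unfold eQ
    rw [if_neg hex, add_zero]
    rw [abs_le] at hkey ⊢
    constructor
    · linarith [hkey.1]
    · linarith [hkey.2]

end Pool.Agent.H76.ISE
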